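import Pool.Agent.DI.Defs

/-! # The inertia group and the leading coefficient at a place with a residue map to `ℂ` -/

namespace Pool.Agent.DK

open Pool.Agent.QN Pool.Agent.QS Pool.Agent.DI

section

variable {M Γ : Type} [Field M] [LinearOrderedCommGroupWithZero Γ]

/-- a residue map with values in `ℂ` -/
structure RMap (v : Valuation M Γ) (r : M → ℂ) : Prop where
  one : r 1 = 1
  add : ∀ z z', v z ≤ 1 → v z' ≤ 1 → r (z + z') = r z + r z'
  mul : ∀ z z', v z ≤ 1 → v z' ≤ 1 → r (z * z') = r z * r z'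
  ker : ∀ z, v z ≤ 1 → (r z = 0 ↔ v z < 1)

/-- a place of `M`: discrete on `Q`, trivial on `K`, with a residue map to `ℂ` -/
structure PlcR (K Q : Type) [Field K] [Field Q] [Algebra K M] [Algebra Q M] (v : Valuation M Γ)
    (π : Γ) (r : M → ℂ) : Prop where
  disc : Disc Q v π
  const : ∀ c : K, c ≠ 0 → v (algebraMap K M c) = 1
  rmap : RMap v r

/-- the inertia group -/
def Ine {Q : Type} [Field Q] [Algebra Q M] (v : Valuation M Γ) (g : M ≃ₐ[Q] M) : Prop :=
  (∀ u, v (g u) = v u) ∧ ∀ u, v u ≤ 1 → v (g u - u) < 1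

/-- the value of `z / z0` at the place -/
noncomputable def lam (v : Valuation M Γ) (r : M → ℂ) (z0 z : M) : ℂ := by
  classical
  exact if v z ≤ v z0 then r (z / z0) else 0

end

section ine

variable {Q M Γ : Type} [Field Q] [Field M] [Algebra Q M] [LinearOrderedCommGroupWithZero Γ]
  {v : Valuation M Γ}

theorem Ine.one : Ine v (1 : M ≃ₐ[Q] M) :=
  ⟨fun _ => rfl, fun u _ => by rw [AlgEquiv.one_apply, sub_self, map_zero]; exact zero_lt_one⟩

theorem Ine.mul {g g' : M ≃ₐ[Q] M} (h : Ine v g) (h' : Ine v g') : Ine v (g * g') := by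
  refine ⟨fun u => by rw [AlgEquiv.mul_apply, h.1, h'.1], fun u hu => ?_⟩
  have h1 : (g * g') u - u = (g (g' u) - g' u) + (g' u - u) := by
    rw [AlgEquiv.mul_apply]
    ring
  rw [h1]
  exact (v.map_add _ _).trans_lt (max_lt (h.2 _ (by rw [h'.1]; exact hu)) (h'.2 u hu))

theorem Ine.inv {g : M ≃ₐ[Q] M} (h : Ine v g) : Ine v g⁻¹ := by
  have h0 : ∀ u, g (g⁻¹ u) = u := fun u => by
    rw [← AlgEquiv.mul_apply, mul_inv_cancel, AlgEquiv.one_apply]
  have h1 : ∀ u, v (g⁻¹ u) = v u := by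
    intro u
    have h2 := h.1 (g⁻¹ u)
    rw [h0] at h2
    exact h2.symm
  refine ⟨h1, fun u hu => ?_⟩
  have h3 := h.2 (g⁻¹ u) (by rw [h1]; exact hu)
  rw [h0] at h3
  rw [v.map_sub_swap]
  exact h3

end ine

variable {K Q M Γ : Type} [Field K] [Field Q] [Field M] [Algebra K Q] [Algebra K M] [Algebra Q M]
  [IsScalarTower K Q M] [LinearOrderedCommGroupWithZero Γ] {v : Valuation M Γ} {π : Γ} {r : M → ℂ}

/-- the decomposition group -/
private def Dec (Q : Type) [Field Q] [Algebra Q M] (v : Valuation M Γ) : Subgroup (M ≃ₐ[Q] M) where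
  carrier := {g | ∀ u, v (g u) = v u}
  one_mem' := fun u => rfl
  mul_mem' := by
    intro a b ha hb u
    rw [AlgEquiv.mul_apply, ha, hb]
  inv_mem' := by
    intro a ha u
    have h1 := ha (a⁻¹ u)
    rw [← AlgEquiv.mul_apply, mul_inv_cancel, AlgEquiv.one_apply] at h1
    exact h1.symm

/-- the class of `1` for the decomposition group is the group itself -/
private theorem sameV_Dec [Infinite K] [FiniteDimensional Q M] (h : PlcR K Q v π r)
    (τ : M ≃ₐ[Q] M) (hτ : SameV (Dec Q v) v 1 τ) : τ ∈ Dec Q v := by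
  classical
  by_contra hn
  obtain ⟨q, hq⟩ := h.disc.surj
  have hy : ∀ g : M ≃ₐ[Q] M, v (g (algebraMap Q M q⁻¹)) = π⁻¹ := by
    intro g
    rw [AlgEquiv.commutes, map_inv₀, map_inv₀, hq]
  have hb0 : ∀ g ∈ (⊥ : Subgroup (M ≃ₐ[Q] M)), g (algebraMap Q M q⁻¹) = algebraMap Q M q⁻¹ :=
    fun g _ => g.commutes _
  obtain ⟨b, -, hb2, hb3⟩ := exists_single_pole h.disc h.const ⊥ (algebraMap Q M q⁻¹) hb0 1
  have hin : ∀ g : M ≃ₐ[Q] M, g ∈ Dec Q v → v (g b) = π⁻¹ := by
    intro g hg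
    rw [hb2 g (fun z _ => (hg z).symm), hy]
  have hout : ∀ g : M ≃ₐ[Q] M, g ∉ Dec Q v → v (g b) ≤ 1 := by
    intro g hg
    apply hb3 g
    intro hs
    apply hg
    intro u
    exact (hs u (fun k hk => by rw [Subgroup.mem_bot.1 hk]; rfl)).symm
  have : Fintype (Dec Q v) := Fintype.ofFinite _
  have hz : ∀ k ∈ Dec Q v, k (∏ d : Dec Q v, (d : M ≃ₐ[Q] M) b) =
      ∏ d : Dec Q v, (d : M ≃ₐ[Q] M) b := by
    intro k hk
    rw [map_prod]
    exact Fintype.prod_equiv (Equiv.mulLeft (⟨k, hk⟩ : Dec Q v)) _ _ fun d => rfl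
  have h1 := hτ _ hz
  rw [AlgEquiv.one_apply, map_prod, map_prod, map_prod] at h1
  have h2 : ∏ d : Dec Q v, v ((d : M ≃ₐ[Q] M) b) = π⁻¹ ^ Fintype.card (Dec Q v) := by
    rw [Finset.prod_congr rfl fun d _ => hin _ (SetLike.coe_mem d), Finset.prod_const,
      Finset.card_univ]
  have h3 : ∏ d : Dec Q v, v (τ ((d : M ≃ₐ[Q] M) b)) ≤ 1 := by
    refine Finset.prod_le_one' fun d _ => ?_
    rw [← AlgEquiv.mul_apply]
    apply hout
    intro hm
    exact hn ((Subgroup.mul_mem_cancel_right _ d.2).1 hm)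
  rw [← h1, h2] at h3
  have h4 : 1 < π⁻¹ := (one_lt_inv₀ h.disc.pos).2 h.disc.lt
  exact absurd h3 (not_le.2 (one_lt_pow₀ h4 Fintype.card_ne_zero))

/-- an element fixed by the decomposition group has a value of `Q` -/
private theorem fixD [Infinite K] [FiniteDimensional Q M] [IsGalois Q M] (h : PlcR K Q v π r)
    (z : M) (hz : ∀ g : M ≃ₐ[Q] M, (∀ u, v (g u) = v u) → g z = z) (h1 : 1 < v z) :
    1 ≤ v z * π := by
  have hz' : ∀ g ∈ Dec Q v, g z = z := fun g hg => hz g hg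
  have h2 := class_one h.disc h.const (Dec Q v) z hz' 1 h1 {Cs.mk (Dec Q v) 1} (by
    intro τ
    rw [Finset.mem_singleton, Cs.mk_eq_iff, mul_one]
    constructor
    · intro hτ w hw
      rw [AlgEquiv.one_apply, ((Dec Q v).inv_mem_iff.1 hτ) w]
    · intro hs
      exact (Dec Q v).inv_mem (sameV_Dec h τ hs))
  rw [Finset.prod_singleton, cj_mk _ z hz'] at h2
  exact h2

omit [Algebra K Q] [IsScalarTower K Q M] [Field K] [Field Q] [Algebra K M] [Algebra Q M] in
theorem RMap.sum (h : RMap v r) {ι : Type} (s : Finset ι) (f : ι → M)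
    (hf : ∀ i ∈ s, v (f i) ≤ 1) : r (∑ i ∈ s, f i) = ∑ i ∈ s, r (f i) := by
  classical
  induction s using Finset.induction_on with
  | empty =>
    rw [Finset.sum_empty, Finset.sum_empty]
    exact (h.ker 0 (by rw [map_zero]; exact zero_le_one)).2 (by rw [map_zero]; exact zero_lt_one)
  | insert a s ha ih =>
    rw [Finset.sum_insert ha, Finset.sum_insert ha, h.add _ _ (hf a (Finset.mem_insert_self a s))
      (v.map_sum_le fun i hi => hf i (Finset.mem_insert_of_mem hi)),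
      ih fun i hi => hf i (Finset.mem_insert_of_mem hi)]

omit [Algebra K Q] [IsScalarTower K Q M] [Field K] [Field Q] [Algebra K M] [Algebra Q M] in
/-- two elements with the same residue -/
theorem RMap.congr (h : RMap v r) {z z' : M} (hz' : v z' ≤ 1) (hd : v (z - z') < 1) :
    r z = r z' := by
  have h1 : z = z' + (z - z') := by ring
  rw [h1, h.add _ _ hz' hd.le, (h.ker _ hd.le).2 hd, add_zero]

/-- an element fixed by the inertia group has a value of `Q` -/
theorem PlcR.fix [Infinite K] [FiniteDimensional Q M] [IsGalois Q M] (h : PlcR K Q v π r) (z : M)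
    (hz : ∀ g : M ≃ₐ[Q] M, Ine v g → g z = z) (h1 : 1 < v z) : 1 ≤ v z * π := by
  classical
  have hz0 : z ≠ 0 := by
    rintro rfl
    rw [map_zero] at h1
    exact absurd h1 (not_lt.2 zero_le_one)
  have : Fintype (Dec Q v) := Fintype.ofFinite _
  let O : Submonoid M :=
    { carrier := {u | v u ≤ 1}
      one_mem' := by
        show v 1 ≤ 1
        rw [map_one]
      mul_mem' := by
        intro a b ha hb
        show v (a * b) ≤ 1
        rw [map_mul]
        exact mul_le_one' ha hb }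
  have hO : ∀ (d : Dec Q v) (u : O), v ((d : M ≃ₐ[Q] M) u) ≤ 1 := by
    intro d u
    rw [d.2 u]
    exact u.2
  let f : Dec Q v → (O →* ℂ) := fun d =>
    { toFun := fun u => r ((d : M ≃ₐ[Q] M) u)
      map_one' := by
        show r ((d : M ≃ₐ[Q] M) (1 : M)) = 1
        rw [map_one, h.rmap.one]
      map_mul' := by
        intro a b
        show r ((d : M ≃ₐ[Q] M) ((a : M) * b)) = _
        rw [map_mul, h.rmap.mul _ _ (hO d a) (hO d b)] }
  let c : Dec Q v → ℂ := fun d => r ((d : M ≃ₐ[Q] M) z / z)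
  have hc : ∀ d : Dec Q v, v ((d : M ≃ₐ[Q] M) z / z) ≤ 1 := by
    intro d
    rw [map_div₀, d.2 z, div_self ((Valuation.ne_zero_iff v).2 hz0)]
  -- the inertia group
  have hI : ∀ d : Dec Q v, f d = f 1 → Ine v (d : M ≃ₐ[Q] M) := by
    intro d hd
    refine ⟨d.2, fun u hu => ?_⟩
    have h2 : r ((d : M ≃ₐ[Q] M) u) = r u := DFunLike.congr_fun hd (⟨u, hu⟩ : O)
    have h3 : v ((d : M ≃ₐ[Q] M) u) ≤ 1 := hO d ⟨u, hu⟩
    have h4 : v (-u) ≤ 1 := by rw [Valuation.map_neg]; exact hu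
    have h5 : v ((d : M ≃ₐ[Q] M) u - u) ≤ 1 := (v.map_sub _ _).trans (max_le h3 hu)
    refine (h.rmap.ker _ h5).1 ?_
    have h6 : r (-u) = - r u := by
      have h7 := h.rmap.add u (-u) hu h4
      rw [add_neg_cancel, (h.rmap.ker 0 (by rw [map_zero]; exact zero_le_one)).2
        (by rw [map_zero]; exact zero_lt_one)] at h7
      exact (neg_eq_of_add_eq_zero_right h7.symm).symm
    rw [sub_eq_add_neg, h.rmap.add _ _ h3 h4, h2, h6, add_neg_cancel]
  have hex : ∃ u : O, ∑ d : Dec Q v, c d * f d u ≠ 0 := by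
    by_contra hcon
    push Not at hcon
    have hli := linearIndependent_monoidHom O ℂ
    rw [linearIndependent_iff'] at hli
    have h2 := hli (Finset.univ.image f)
      (fun g => ∑ d ∈ Finset.univ.filter (fun d => f d = g), c d) (by
        funext u
        rw [Finset.sum_apply, Pi.zero_apply, ← hcon u]
        rw [← Finset.sum_fiberwise_of_maps_to (s := Finset.univ) (t := Finset.univ.image f)
          (g := f) (fun d _ => Finset.mem_image_of_mem f (Finset.mem_univ d))]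
        refine Finset.sum_congr rfl fun g _ => ?_
        rw [Pi.smul_apply, smul_eq_mul, Finset.sum_mul]
        refine Finset.sum_congr rfl fun d hd => ?_
        rw [(Finset.mem_filter.1 hd).2]) (f 1) (Finset.mem_image_of_mem f (Finset.mem_univ 1))
    have h3 : ∀ d ∈ Finset.univ.filter (fun d => f d = f 1), c d = 1 := by
      intro d hd
      show r ((d : M ≃ₐ[Q] M) z / z) = 1
      rw [hz _ (hI d (Finset.mem_filter.1 hd).2), div_self hz0, h.rmap.one]
    rw [Finset.sum_congr rfl h3, Finset.sum_const, nsmul_eq_mul, mul_one] at h2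
    have h4 : (Finset.univ.filter (fun d => f d = f 1)).card ≠ 0 :=
      Finset.card_ne_zero_of_mem (Finset.mem_filter.2 ⟨Finset.mem_univ 1, rfl⟩)
    exact h4 (Nat.cast_eq_zero.1 h2)
  obtain ⟨u, hu⟩ := hex
  -- the sum over the decomposition group
  have hw : ∀ g : M ≃ₐ[Q] M, (∀ u, v (g u) = v u) →
      g (∑ d : Dec Q v, (d : M ≃ₐ[Q] M) (u * z)) = ∑ d : Dec Q v, (d : M ≃ₐ[Q] M) (u * z) := by
    intro g hg
    rw [map_sum]
    exact Fintype.sum_equiv (Equiv.mulLeft (⟨g, hg⟩ : Dec Q v)) _ _ fun d => rfl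
  have h2 : (∑ d : Dec Q v, (d : M ≃ₐ[Q] M) (u * z)) / z =
      ∑ d : Dec Q v, (d : M ≃ₐ[Q] M) u * ((d : M ≃ₐ[Q] M) z / z) := by
    rw [Finset.sum_div]
    refine Finset.sum_congr rfl fun d _ => ?_
    rw [map_mul, mul_div_assoc]
  have h3 : ∀ d : Dec Q v, v ((d : M ≃ₐ[Q] M) u * ((d : M ≃ₐ[Q] M) z / z)) ≤ 1 := by
    intro d
    rw [map_mul]
    exact mul_le_one' (hO d u) (hc d)
  have h4 : v (∑ d : Dec Q v, (d : M ≃ₐ[Q] M) u * ((d : M ≃ₐ[Q] M) z / z)) ≤ 1 :=
    v.map_sum_le fun d _ => h3 d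
  have h5 : v (∑ d : Dec Q v, (d : M ≃ₐ[Q] M) u * ((d : M ≃ₐ[Q] M) z / z)) = 1 := by
    refine le_antisymm h4 (not_lt.1 fun hlt => hu ?_)
    have h6 := (h.rmap.ker _ h4).2 hlt
    rw [h.rmap.sum _ _ fun d _ => h3 d] at h6
    rw [← h6]
    refine Finset.sum_congr rfl fun d _ => ?_
    rw [h.rmap.mul _ _ (hO d u) (hc d), mul_comm]
    rfl
  have h6 : v (∑ d : Dec Q v, (d : M ≃ₐ[Q] M) (u * z)) = v z := by
    rw [← h2, map_div₀, div_eq_one_iff_eq ((Valuation.ne_zero_iff v).2 hz0)] at h5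
    exact h5
  have h7 := fixD h _ hw (by rw [h6]; exact h1)
  rwa [h6] at h7

omit [Algebra K Q] [IsScalarTower K Q M] [Field K] [Field Q] [Algebra K M] [Algebra Q M] in
private theorem div_le {z0 z : M} (hz0 : z0 ≠ 0) (hz : v z ≤ v z0) : v (z / z0) ≤ 1 := by
  rw [map_div₀]
  exact div_le_one_of_le₀ hz zero_le

omit [Algebra K Q] [IsScalarTower K Q M] [Field K] [Field Q] [Algebra K M] [Algebra Q M] in
theorem lam_def {z0 z : M} (hz : v z ≤ v z0) : lam v r z0 z = r (z / z0) := by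
  classical
  unfold lam
  rw [if_pos hz]

omit [Algebra K Q] [IsScalarTower K Q M] [Field K] [Field Q] [Algebra K M] [Algebra Q M] in
theorem lam_big {z0 z : M} (hz : v z0 < v z) : lam v r z0 z = 0 := by
  classical
  unfold lam
  rw [if_neg (not_le.2 hz)]

omit [Algebra K Q] [IsScalarTower K Q M] in
theorem lam_small (h : PlcR K Q v π r) {z0 z : M} (hz0 : z0 ≠ 0) (hz : v z < v z0) :
    lam v r z0 z = 0 := by
  rw [lam_def hz.le]
  refine (h.rmap.ker _ (div_le hz0 hz.le)).2 ?_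
  rw [map_div₀]
  exact (div_lt_one₀ (zero_lt_iff.2 ((Valuation.ne_zero_iff v).2 hz0))).2 hz

omit [Algebra K Q] [IsScalarTower K Q M] in
theorem lam_self (h : PlcR K Q v π r) {z0 : M} (hz0 : z0 ≠ 0) : lam v r z0 z0 = 1 := by
  rw [lam_def le_rfl, div_self hz0, h.rmap.one]

omit [Algebra K Q] [IsScalarTower K Q M] in
theorem lam_add (h : PlcR K Q v π r) {z0 z z' : M} (hz0 : z0 ≠ 0) (hz : v z ≤ v z0)
    (hz' : v z' ≤ v z0) : lam v r z0 (z + z') = lam v r z0 z + lam v r z0 z' := by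
  rw [lam_def hz, lam_def hz', lam_def ((v.map_add _ _).trans (max_le hz hz')), add_div,
    h.rmap.add _ _ (div_le hz0 hz) (div_le hz0 hz')]

omit [Algebra K Q] [IsScalarTower K Q M] in
theorem lam_sum (h : PlcR K Q v π r) {z0 : M} (hz0 : z0 ≠ 0) {ι : Type} (s : Finset ι) (f : ι → M)
    (hf : ∀ i ∈ s, v (f i) ≤ v z0) : lam v r z0 (∑ i ∈ s, f i) = ∑ i ∈ s, lam v r z0 (f i) := by
  rw [lam_def (v.map_sum_le hf), Finset.sum_div, h.rmap.sum _ _ fun i hi => div_le hz0 (hf i hi)]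
  exact Finset.sum_congr rfl fun i hi => (lam_def (hf i hi)).symm

omit [Algebra K Q] [IsScalarTower K Q M] in
theorem lam_ne_zero (h : PlcR K Q v π r) {z0 z : M} (hz0 : z0 ≠ 0) :
    lam v r z0 z ≠ 0 → v z = v z0 := by
  intro hl
  rcases lt_trichotomy (v z) (v z0) with hlt | heq | hgt
  · exact absurd (lam_small h hz0 hlt) hl
  · exact heq
  · exact absurd (lam_big hgt) hl

omit [Algebra K Q] [IsScalarTower K Q M] in
theorem lam_ne_zero' (h : PlcR K Q v π r) {z0 z : M} (hz0 : z0 ≠ 0) (hz : v z = v z0) :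
    lam v r z0 z ≠ 0 := by
  rw [lam_def hz.le]
  intro h0
  have h1 := (h.rmap.ker _ (div_le hz0 hz.le)).1 h0
  rw [map_div₀, hz, div_self ((Valuation.ne_zero_iff v).2 hz0)] at h1
  exact lt_irrefl _ h1

omit [Algebra K Q] [IsScalarTower K Q M] in
/-- the character of the inertia group (for every `z`) -/
theorem lam_smul (h : PlcR K Q v π r) {z0 : M} (hz0 : z0 ≠ 0) (g : M ≃ₐ[Q] M)
    (hg : Ine v g) (z : M) : lam v r z0 (g z) = lam v r z0 (g z0) * lam v r z0 z := by
  rcases lt_or_ge (v z0) (v z) with hlt | hle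
  · rw [lam_big hlt, mul_zero, lam_big (by rw [hg.1]; exact hlt)]
  · have h1 : v (z / z0) ≤ 1 := div_le hz0 hle
    have h2 : v (g z0 / z0) ≤ 1 := div_le hz0 (hg.1 z0).le
    have h3 : g z0 ≠ 0 := (map_ne_zero _).2 hz0
    have h4 : g z / z0 = (g z0 / z0) * g (z / z0) := by
      rw [map_div₀]
      field_simp
    rw [lam_def (by rw [hg.1]; exact hle), lam_def (hg.1 z0).le, lam_def hle, h4,
      h.rmap.mul _ _ h2 (by rw [hg.1]; exact h1), h.rmap.congr h1 (hg.2 _ h1)]

omit [Algebra K Q] [IsScalarTower K Q M] in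
theorem chi_pow [FiniteDimensional Q M] (h : PlcR K Q v π r) {z0 : M} (hz0 : z0 ≠ 0)
    (g : M ≃ₐ[Q] M) (hg : Ine v g) : ∃ n : ℕ, 0 < n ∧ lam v r z0 (g z0) ^ n = 1 := by
  refine ⟨orderOf g, orderOf_pos g, ?_⟩
  have key : ∀ n : ℕ, lam v r z0 ((g ^ n) z0) = lam v r z0 (g z0) ^ n := by
    intro n
    induction n with
    | zero =>
      rw [pow_zero, pow_zero, AlgEquiv.one_apply]
      exact lam_self h hz0
    | succ n ih =>
      rw [pow_succ', AlgEquiv.mul_apply, lam_smul h hz0 g hg, ih, pow_succ']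
  rw [← key, pow_orderOf_eq_one, AlgEquiv.one_apply]
  exact lam_self h hz0

end Pool.Agent.DK
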